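import Pool.Agent.MOMQ.Model
import Pool.Agent.MOM.Dyn.Fin5

/-!
MOMQ (MP_2b7f8f_an, Q2): uniquely ergodic models of the time maps of cocompact horocycle flows.
-/

set_option autoImplicit false

namespace Pool.Agent.MOMQ

open Finset Filter Topology MeasureTheory

open Pool.Agent.MOM.Dyn (G)

/-- The strong MOMO property of the horocycle map, for `MomoFor`. -/
theorem momo_horo (Γ : Subgroup G) (hΓ : DiscreteTopology Γ)
    (hneg : ∀ z : G, (z : Matrix (Fin 2) (Fin 2) ℝ) = -1 → z ∈ Γ) (hcpt : CompactSpace (G ⧸ Γ))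
    (t₀ : ℝ) (ht : t₀ ≠ 0) (u : G) (hu : (u : Matrix (Fin 2) (Fin 2) ℝ) = !![1, t₀; 0, 1])
    (F : G ⧸ Γ → ℂ) (hF : Continuous F) : MomoFor (fun x : G ⧸ Γ => u • x) F := by
  intro b hb0 hb hg x
  refine (Pool.Agent.MOM.Dyn.final Γ hΓ hneg hcpt t₀ ht u hu b hb0 hb hg x F hF).congr fun K => ?_
  simp only [blk]
  congr 1
  refine sum_congr rfl fun k _ => ?_
  congr 1
  refine sum_congr rfl fun n _ => ?_
  rw [smul_iterate]

/-- Every uniquely ergodic model of a horocycle map has the strong MOMO property. -/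
theorem momo_models (Γ : Subgroup G) (hΓ : DiscreteTopology Γ)
    (hneg : ∀ z : G, (z : Matrix (Fin 2) (Fin 2) ℝ) = -1 → z ∈ Γ) (hcpt : CompactSpace (G ⧸ Γ))
    [MeasurableSpace (G ⧸ Γ)] [BorelSpace (G ⧸ Γ)] (m : Measure (G ⧸ Γ)) [IsProbabilityMeasure m]
    (t₀ : ℝ) (ht : t₀ ≠ 0) (u : G) (hu : (u : Matrix (Fin 2) (Fin 2) ℝ) = !![1, t₀; 0, 1])
    {Y : Type*} [TopologicalSpace Y] [CompactSpace Y] [T2Space Y] [SecondCountableTopology Y]
    [MeasurableSpace Y] [BorelSpace Y] {S : Y → Y} (hS : Continuous S) {ν : Measure Y}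
    [IsProbabilityMeasure ν] (hν : ν.map S = ν)
    (huniq : ∀ ρ : Measure Y, IsProbabilityMeasure ρ → ρ.map S = ρ → ρ = ν)
    {φ : Y → G ⧸ Γ} {ψ : G ⧸ Γ → Y} (hφ : Measurable φ) (hψ : Measurable ψ) (hm : ν.map φ = m)
    (hinv : ∀ᵐ y ∂ν, ψ (φ y) = y) (heq : ∀ᵐ y ∂ν, φ (S y) = u • φ y)
    {f : Y → ℂ} (hf : Continuous f) : MomoFor S f := by
  have hcl : IsClosed (Γ : Set G) := Subgroup.isClosed_of_discrete
  have : T2Space (G ⧸ Γ) := inferInstance
  have : SecondCountableTopology (G ⧸ Γ) := inferInstance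
  have hT : Continuous fun x : G ⧸ Γ => u • x := continuous_const_smul u
  exact momo_model (T := fun x : G ⧸ Γ => u • x) hT.measurable hS hν huniq hφ hψ hm hinv heq
    (fun F hF => momo_horo Γ hΓ hneg hcpt t₀ ht u hu F hF) hf

end Pool.Agent.MOMQ
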