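import Pool.Agent.MOMQ.Sub
import Pool.Agent.MOM.Dyn.Erg.Main

/-!
MOMQ (MP_2b7f8f_an, Q2): approximation in mean by continuous functions on `X`, and the mean distance
of `Y`-orbits from `X`-orbits in a uniquely ergodic model.
-/

set_option autoImplicit false

namespace Pool.Agent.MOMQ

open Finset Filter Topology MeasureTheory

variable {X Y : Type*} [TopologicalSpace X] [CompactSpace X] [T2Space X]
  [SecondCountableTopology X] [MeasurableSpace X] [BorelSpace X]
  [TopologicalSpace Y] [CompactSpace Y] [T2Space Y]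
  [SecondCountableTopology Y] [MeasurableSpace Y] [BorelSpace Y]

omit [T2Space Y] [SecondCountableTopology Y] [MeasurableSpace Y] [BorelSpace Y] in
theorem exists_bd {f : Y → ℂ} (hf : Continuous f) : ∃ M : ℝ, 0 ≤ M ∧ ∀ y, ‖f y‖ ≤ M := by
  obtain ⟨C, hC⟩ := isCompact_univ.exists_bound_of_continuousOn hf.continuousOn
  exact ⟨max C 0, le_max_right _ _, fun y => (hC y (Set.mem_univ y)).trans (le_max_left _ _)⟩

omit [T2Space Y] [SecondCountableTopology Y] in
/-- A continuous function on `Y` is close in mean to a continuous function on `X`. -/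
theorem exists_approx {m : Measure X} [IsProbabilityMeasure m] {ν : Measure Y}
    [IsProbabilityMeasure ν] {φ : Y → X} {ψ : X → Y} (hφ : Measurable φ) (hψ : Measurable ψ)
    (hm : ν.map φ = m) (hinv : ∀ᵐ y ∂ν, ψ (φ y) = y) {f : Y → ℂ} (hf : Continuous f) {ε : ℝ}
    (hε : 0 < ε) : ∃ F : X → ℂ, Continuous F ∧ ∫ y, ‖f y - F (φ y)‖ ∂ν ≤ ε := by
  have hX : TopologicalSpace.MetrizableSpace X :=
    TopologicalSpace.metrizableSpace_of_t3_secondCountable X
  obtain ⟨M, hM0, hM⟩ := exists_bd hf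
  have hfm : Measurable f := hf.measurable
  have hint : Integrable (fun x => f (ψ x)) m :=
    Integrable.of_bound (hfm.comp hψ).aestronglyMeasurable M (ae_of_all _ fun x => hM _)
  obtain ⟨g, hg, -⟩ := hint.exists_boundedContinuous_integral_sub_le hε
  refine ⟨g, g.continuous, ?_⟩
  have h1 : ∫ y, ‖f y - g (φ y)‖ ∂ν = ∫ y, ‖f (ψ (φ y)) - g (φ y)‖ ∂ν := by
    refine integral_congr_ae ?_
    filter_upwards [hinv] with y hy
    rw [hy]
  have h2 : ∫ y, ‖f (ψ (φ y)) - g (φ y)‖ ∂ν = ∫ x, ‖f (ψ x) - g x‖ ∂(ν.map φ) := by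
    rw [integral_map hφ.aemeasurable]
    exact ((hfm.comp hψ).sub g.continuous.measurable).norm.aestronglyMeasurable
  rw [h1, h2, hm]
  exact hg

/-- The mean distance. -/
theorem int_dst_le {T : X → X} (hT : Measurable T) {S : Y → Y} (hS : Continuous S) {ν : Measure Y}
    [IsProbabilityMeasure ν] (hν : ν.map S = ν) {φ : Y → X} (hφ : Measurable φ)
    (heq : ∀ᵐ y ∂ν, φ (S y) = T (φ y)) {f : Y → ℂ} (hf : Continuous f) {F : X → ℂ}
    (hF : Continuous F) [Nonempty X] {ε : ℝ} (h : ∫ y, ‖f y - F (φ y)‖ ∂ν ≤ ε) (L : ℕ) :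
    ∫ y, dst T F S f L y ∂ν ≤ L * ε := by
  have hmp : MeasurePreserving S ν ν := ⟨hS.measurable, hν⟩
  obtain ⟨M, hM0, hM⟩ := exists_bd hf
  obtain ⟨M', hM'0, hM'⟩ := exists_bd hF
  have hfm : Measurable f := hf.measurable
  have hFm : Measurable F := hF.measurable
  have hit : ∀ j : ℕ, ∀ᵐ y ∂ν, φ (S^[j] y) = T^[j] (φ y) := by
    intro j
    induction j with
    | zero => exact ae_of_all _ fun y => rfl
    | succ j ih =>
      have h1 := (hmp.iterate j).quasiMeasurePreserving.ae heq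
      filter_upwards [ih, h1] with y h2 h3
      rw [Function.iterate_succ_apply', Function.iterate_succ_apply', h3, h2]
  have hbd : ∀ (y : Y) (x : X), ‖‖f y - F x‖‖ ≤ M + M' := by
    intro y x
    rw [norm_norm]
    exact (norm_sub_le _ _).trans (add_le_add (hM y) (hM' x))
  have hmeas : ∀ j : ℕ, Measurable fun y => ‖f (S^[j] y) - F (T^[j] (φ y))‖ := fun j =>
    ((hfm.comp (hS.measurable.iterate j)).sub (hFm.comp ((hT.iterate j).comp hφ))).norm
  have hintj : ∀ j : ℕ, Integrable (fun y => ‖f (S^[j] y) - F (T^[j] (φ y))‖) ν := fun j =>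
    Integrable.of_bound (hmeas j).aestronglyMeasurable (M + M') (ae_of_all _ fun y => hbd _ _)
  have hintc : Integrable (fun y => cost T F S f L y (φ y)) ν :=
    integrable_finsetSum _ fun j _ => hintj j
  have hdc : Continuous (dst T F S f L) := dst_cont T F hS hf L
  have hintd : Integrable (dst T F S f L) ν := by
    obtain ⟨C, hC⟩ := (isCompact_univ (X := Y)).exists_bound_of_continuousOn hdc.continuousOn
    exact Integrable.of_bound hdc.measurable.aestronglyMeasurable C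
      (ae_of_all _ fun y => hC y (Set.mem_univ y))
  have h1 : ∫ y, dst T F S f L y ∂ν ≤ ∫ y, cost T F S f L y (φ y) ∂ν :=
    integral_mono hintd hintc fun y => dst_le T F S f L y (φ y)
  have h2 : ∫ y, cost T F S f L y (φ y) ∂ν =
      ∑ j ∈ range L, ∫ y, ‖f (S^[j] y) - F (T^[j] (φ y))‖ ∂ν := by
    simp only [cost]
    exact integral_finsetSum _ fun j _ => hintj j
  have h3 : ∀ j : ℕ, ∫ y, ‖f (S^[j] y) - F (T^[j] (φ y))‖ ∂ν = ∫ y, ‖f y - F (φ y)‖ ∂ν := by
    intro j
    have h4 : ∫ y, ‖f (S^[j] y) - F (T^[j] (φ y))‖ ∂ν =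
        ∫ y, ‖f (S^[j] y) - F (φ (S^[j] y))‖ ∂ν := by
      refine integral_congr_ae ?_
      filter_upwards [hit j] with y hy
      rw [hy]
    have h5 : ∫ y, ‖f y - F (φ y)‖ ∂(ν.map (S^[j])) =
        ∫ y, ‖f (S^[j] y) - F (φ (S^[j] y))‖ ∂ν := by
      rw [integral_map (hS.measurable.iterate j).aemeasurable]
      exact (hfm.sub (hFm.comp hφ)).norm.aestronglyMeasurable
    rw [h4, ← h5, (hmp.iterate j).map_eq]
  rw [h2] at h1
  refine h1.trans ?_
  rw [sum_congr rfl fun j _ => h3 j, sum_const, card_range, nsmul_eq_mul]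
  exact mul_le_mul_of_nonneg_left h (Nat.cast_nonneg L)

/-- Uniform bound for the Birkhoff sums of the distance in a uniquely ergodic system. -/
theorem unif {S : Y → Y} (hS : Continuous S) {ν : Measure Y} [IsProbabilityMeasure ν]
    (huniq : ∀ ρ : Measure Y, IsProbabilityMeasure ρ → ρ.map S = ρ → ρ = ν)
    {D : Y → ℝ} (hD : Continuous D) {c : ℝ} (hc : ∫ y, D y ∂ν ≤ c) {e : ℝ} (he : 0 < e) :
    ∃ N0 : ℕ, ∀ g : ℕ, N0 ≤ g → ∀ z : Y, ∑ n ∈ range g, D (S^[n] z) ≤ (c + e) * g := by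
  set ψ : C(Y, ℝ) := ⟨fun y => D y - ∫ y, D y ∂ν, hD.sub continuous_const⟩ with hψ
  have hint : Integrable D ν := by
    obtain ⟨C, hC⟩ := (isCompact_univ (X := Y)).exists_bound_of_continuousOn hD.continuousOn
    exact Integrable.of_bound hD.measurable.aestronglyMeasurable C
      (ae_of_all _ fun y => hC y (Set.mem_univ y))
  have h0 : ∀ ρ : Measure Y, IsProbabilityMeasure ρ → Ergodic S ρ → ∫ z, ψ z ∂ρ = 0 := by
    intro ρ h1 h2
    rw [huniq ρ h1 h2.toMeasurePreserving.map_eq]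
    simp only [hψ, ContinuousMap.coe_mk]
    rw [integral_sub hint (integrable_const _), integral_const]
    simp
  obtain ⟨N0, hN0⟩ := Pool.Agent.MOM.Dyn.erg_unif hS ψ h0 he
  refine ⟨N0, fun g hg z => ?_⟩
  have h1 := (abs_le.1 (hN0 g hg z)).2
  simp only [hψ, ContinuousMap.coe_mk, sum_sub_distrib, sum_const, card_range, nsmul_eq_mul] at h1
  have h2 : (g : ℝ) * ∫ y, D y ∂ν ≤ g * c := mul_le_mul_of_nonneg_left hc (Nat.cast_nonneg g)
  nlinarith

end Pool.Agent.MOMQ
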