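import Pool.Agent.MOMQ.Meas

/-!
MOMQ (MP_2b7f8f_an, Q2): the strong MOMO property passes to uniquely ergodic models, and it gives
Möbius disjointness.
-/

set_option autoImplicit false

namespace Pool.Agent.MOMQ

open Finset Filter Topology MeasureTheory

variable {X Y : Type*} [TopologicalSpace X] [CompactSpace X] [T2Space X]
  [SecondCountableTopology X] [MeasurableSpace X] [BorelSpace X]
  [TopologicalSpace Y] [CompactSpace Y] [T2Space Y]
  [SecondCountableTopology Y] [MeasurableSpace Y] [BorelSpace Y]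

omit [T2Space Y] [SecondCountableTopology Y] [MeasurableSpace Y] [BorelSpace Y]
  [TopologicalSpace Y] [CompactSpace Y] in
theorem norm_blk_le {S : Y → Y} {f : Y → ℂ} {M : ℝ} (hf : ∀ y, ‖f y‖ ≤ M) (a e : ℕ) (y : Y) :
    ‖blk S f a e y‖ ≤ M * ((e - a : ℕ) : ℝ) := by
  have h1 : ‖blk S f a e y‖ ≤ ∑ _n ∈ Ico a e, M := by
    unfold blk
    refine norm_sum_le_of_le _ fun n _ => ?_
    rw [norm_mul]
    have h2 := hf (S^[n - a] y)
    have h3 := norm_moebius_le n
    have h4 : 0 ≤ M := (norm_nonneg _).trans h2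
    calc ‖f (S^[n - a] y)‖ * ‖((ArithmeticFunction.moebius n : ℤ) : ℂ)‖ ≤ M * 1 :=
          mul_le_mul h2 h3 (norm_nonneg _) h4
      _ = M := mul_one M
  rw [sum_const, Nat.card_Ico, nsmul_eq_mul] at h1
  linarith [mul_comm ((e - a : ℕ) : ℝ) M]

/-- The strong MOMO property passes from `(X, T)` to a uniquely ergodic model `(Y, S)` of
`(X, m, T)`. -/
theorem momo_model {T : X → X} (hT : Measurable T) {S : Y → Y} (hS : Continuous S)
    {m : Measure X} [IsProbabilityMeasure m] {ν : Measure Y} [IsProbabilityMeasure ν]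
    (hν : ν.map S = ν)
    (huniq : ∀ ρ : Measure Y, IsProbabilityMeasure ρ → ρ.map S = ρ → ρ = ν)
    {φ : Y → X} {ψ : X → Y} (hφ : Measurable φ) (hψ : Measurable ψ) (hm : ν.map φ = m)
    (hinv : ∀ᵐ y ∂ν, ψ (φ y) = y) (heq : ∀ᵐ y ∂ν, φ (S y) = T (φ y))
    (hX : ∀ F : X → ℂ, Continuous F → MomoFor T F) {f : Y → ℂ} (hf : Continuous f) :
    MomoFor S f := by
  classical
  intro b hb0 hb hg y
  have hXne : Nonempty X := nonempty_of_isProbabilityMeasure m
  rw [Metric.tendsto_atTop]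
  intro δ hδ
  set ε : ℝ := δ / 12 with hεdef
  have hε : 0 < ε := by positivity
  obtain ⟨F, hF, hFf⟩ := exists_approx hφ hψ hm hinv hf hε
  obtain ⟨M1, hM10, hM1⟩ := exists_bd hf
  obtain ⟨M2, hM20, hM2⟩ := exists_bd hF
  set M : ℝ := max M1 M2 with hMdef
  have hfM : ∀ z, ‖f z‖ ≤ M := fun z => (hM1 z).trans (le_max_left _ _)
  have hFM : ∀ z, ‖F z‖ ≤ M := fun z => (hM2 z).trans (le_max_right _ _)
  have hM0 : 0 ≤ M := hM10.trans (le_max_left _ _)
  -- thresholds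
  have hth : ∀ L : ℕ, ∃ N0 : ℕ, 1 ≤ L → (3 * L ≤ N0 ∧ 10 * M * L ≤ ε * N0 ∧
      ∀ g, N0 ≤ g → ∀ z, ∑ n ∈ range g, dst T F S f L (S^[n] z) ≤ (2 * ε) * L * g) := by
    intro L
    rcases Nat.eq_zero_or_pos L with h0 | h0
    · exact ⟨0, fun h => by omega⟩
    · have hL : (0 : ℝ) < L := by exact_mod_cast h0
      obtain ⟨N1, hN1⟩ := unif hS huniq (dst_cont T F hS hf L)
        (int_dst_le hT hS hν hφ heq hf hF hFf L) (mul_pos hL hε)
      obtain ⟨N2, hN2⟩ := exists_nat_ge (10 * M * L / ε)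
      refine ⟨max N1 (max N2 (3 * L)), fun _ => ⟨by omega, ?_, fun g hg z => ?_⟩⟩
      · have h1 : 10 * M * L ≤ N2 * ε := (div_le_iff₀ hε).1 hN2
        have h2 : (N2 : ℝ) ≤ ((max N1 (max N2 (3 * L)) : ℕ) : ℝ) := by
          exact_mod_cast (le_max_left N2 (3 * L)).trans (le_max_right _ _)
        nlinarith
      · have h1 := hN1 g ((le_max_left _ _).trans hg) z
        refine h1.trans (le_of_eq ?_)
        ring
  choose Th hTh using hth
  set gap : ℕ → ℕ := fun k => b (k + 1) - b k with hgap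
  have hgap1 : ∀ k, 1 ≤ gap k ∧ b k + gap k = b (k + 1) := fun k => by
    have : b k < b (k + 1) := hb (Nat.lt_succ_self k)
    simp only [hgap]
    constructor <;> omega
  set lo' : ℕ → ℕ := fun k => Nat.findGreatest (fun l => Th l ≤ gap k) k with hlo'
  have hlo'1 : ∀ k, 1 ≤ lo' k → Th (lo' k) ≤ gap k := by
    intro k hk
    exact Nat.findGreatest_of_ne_zero (P := fun l => Th l ≤ gap k) (n := k) (m := lo' k) rfl
      (by omega)
  have hlo't : Tendsto lo' atTop atTop := by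
    rw [tendsto_atTop]
    intro A
    filter_upwards [eventually_ge_atTop A, hg.eventually_ge_atTop (Th A)] with k h1 h2
    exact Nat.le_findGreatest (P := fun l => Th l ≤ gap k) h1 h2
  have hblock : ∀ k, ∃ (lo q : ℕ) (c : ℕ → ℕ) (x : ℕ → X), 1 ≤ q ∧ 1 ≤ lo ∧ c 0 = b k ∧
      c q = b (k + 1) ∧ (∀ j < q, c j + lo ≤ c (j + 1)) ∧ lo' k ≤ lo ∧
      (1 ≤ lo' k → ‖blk S f (b k) (b (k + 1)) (y k)‖ ≤
        ∑ j ∈ range q, ‖blk T F (c j) (c (j + 1)) (x j)‖ + 5 * ε * (gap k : ℝ)) := by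
    intro k
    rcases Nat.eq_zero_or_pos (lo' k) with h0 | h0
    · refine ⟨1, 1, fun j => if j = 0 then b k else b (k + 1), fun _ => hXne.some, le_rfl, le_rfl,
        by simp, by simp, ?_, by omega, fun h => by omega⟩
      intro j hj
      have hj0 : j = 0 := by omega
      subst hj0
      have := hgap1 k
      simp only [if_true, zero_add, one_ne_zero, if_false]
      omega
    · have h1 := hlo'1 k h0
      obtain ⟨h2, h3, h4⟩ := hTh (lo' k) h0
      obtain ⟨q, c, x, hq, hc0, hcq, hcs, hbd⟩ := sub T F S f hfM hFM (L := lo' k) (g := gap k) h0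
        (h2.trans h1) (b k) (y k) (η := 2 * ε) (by positivity) (h4 _ h1 (y k))
      refine ⟨lo' k, q, c, x, hq, h0, hc0, hcq.trans (hgap1 k).2, hcs, le_rfl, fun _ => ?_⟩
      rw [(hgap1 k).2] at hbd
      have h5 : 10 * M * (lo' k : ℝ) ≤ ε * (gap k : ℝ) := by
        refine h3.trans ?_
        have : (Th (lo' k) : ℝ) ≤ (gap k : ℝ) := by exact_mod_cast h1
        gcongr
      nlinarith
  choose lo q c x hq hlo1 hc0 hcq hcs hlole hbd using hblock
  have htwo := two (hX F hF) hb0 q c x lo hq hc0 hcq hcs hlo1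
    (tendsto_atTop_mono hlole hlo't)
  -- the final estimate
  obtain ⟨A0, hA0⟩ := (tendsto_atTop.1 hlo't 1).exists_forall_of_atTop
  set C0 : ℝ := ∑ k ∈ range A0, M * (gap k : ℝ) with hC0
  have hterm : ∀ k, ‖blk S f (b k) (b (k + 1)) (y k)‖ ≤
      ∑ j ∈ range (q k), ‖blk T F (c k j) (c k (j + 1)) (x k j)‖ + 5 * ε * (gap k : ℝ) +
        (if k < A0 then M * (gap k : ℝ) else 0) := by
    intro k
    have hs0 : 0 ≤ ∑ j ∈ range (q k), ‖blk T F (c k j) (c k (j + 1)) (x k j)‖ :=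
      sum_nonneg fun _ _ => norm_nonneg _
    by_cases hk : k < A0
    · rw [if_pos hk]
      have h1 := norm_blk_le (S := S) hfM (b k) (b (k + 1)) (y k)
      have h2 : 0 ≤ 5 * ε * (gap k : ℝ) := by positivity
      have h3 : M * ((b (k + 1) - b k : ℕ) : ℝ) = M * (gap k : ℝ) := rfl
      linarith
    · rw [if_neg hk, add_zero]
      exact hbd k (hA0 k (by omega))
  have hsumgap : ∀ K, ∑ k ∈ range K, (gap k : ℝ) = b K := by
    intro K
    induction K with
    | zero => simp [hb0]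
    | succ K ih =>
      rw [sum_range_succ, ih]
      exact_mod_cast (hgap1 K).2
  have hC00 : 0 ≤ C0 := sum_nonneg fun _ _ => by positivity
  have hsumif : ∀ K, ∑ k ∈ range K, (if k < A0 then M * (gap k : ℝ) else 0) ≤ C0 := by
    intro K
    rw [← sum_filter]
    refine sum_le_sum_of_subset_of_nonneg (fun k hk => ?_) fun _ _ _ => by positivity
    rw [mem_filter] at hk
    exact mem_range.2 hk.2
  have hsum : ∀ K, ∑ k ∈ range K, ‖blk S f (b k) (b (k + 1)) (y k)‖ ≤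
      ∑ k ∈ range K, ∑ j ∈ range (q k), ‖blk T F (c k j) (c k (j + 1)) (x k j)‖ +
        5 * ε * (b K : ℝ) + C0 := by
    intro K
    refine (sum_le_sum fun k _ => hterm k).trans ?_
    rw [sum_add_distrib, sum_add_distrib, ← mul_sum, hsumgap]
    have := hsumif K
    linarith
  have hbt : Tendsto (fun K => (b K : ℝ)) atTop atTop :=
    tendsto_natCast_atTop_atTop.comp hb.tendsto_atTop
  have hct : Tendsto (fun K => C0 / (b K : ℝ)) atTop (𝓝 0) := hbt.const_div_atTop C0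
  rw [Metric.tendsto_atTop] at htwo hct
  obtain ⟨K1, hK1⟩ := htwo ε hε
  obtain ⟨K2, hK2⟩ := hct ε hε
  refine ⟨max (max K1 K2) 1, fun K hK => ?_⟩
  have hKK1 : K1 ≤ K := ((le_max_left _ _).trans (le_max_left _ _)).trans hK
  have hKK2 : K2 ≤ K := ((le_max_right _ _).trans (le_max_left _ _)).trans hK
  have hK1' : 1 ≤ K := (le_max_right _ _).trans hK
  have hbK : (0 : ℝ) < b K := by
    have : b 0 < b K := hb (by omega)
    have : 0 < b K := by omega
    exact_mod_cast this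
  have e1 := hK1 K hKK1
  have e2 := hK2 K hKK2
  rw [Real.dist_eq, sub_zero] at e1 e2 ⊢
  have e1' := (abs_lt.1 e1).2
  have e2' := (abs_lt.1 e2).2
  have e3 : 0 ≤ (1 / (b K : ℝ)) * ∑ k ∈ range K, ‖blk S f (b k) (b (k + 1)) (y k)‖ := by
    positivity
  rw [abs_of_nonneg e3]
  have e4 : (1 / (b K : ℝ)) * ∑ k ∈ range K, ‖blk S f (b k) (b (k + 1)) (y k)‖ ≤
      (1 / (b K : ℝ)) * (∑ k ∈ range K,
        ∑ j ∈ range (q k), ‖blk T F (c k j) (c k (j + 1)) (x k j)‖ +
        5 * ε * (b K : ℝ) + C0) := by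
    refine mul_le_mul_of_nonneg_left (hsum K) ?_
    positivity
  have e5 : (1 / (b K : ℝ)) * (∑ k ∈ range K,
        ∑ j ∈ range (q k), ‖blk T F (c k j) (c k (j + 1)) (x k j)‖ +
        5 * ε * (b K : ℝ) + C0) =
      (1 / (b K : ℝ)) * (∑ k ∈ range K,
        ∑ j ∈ range (q k), ‖blk T F (c k j) (c k (j + 1)) (x k j)‖) + 5 * ε + C0 / (b K : ℝ) := by
    field_simp
  rw [e5] at e4
  have e6 : ε = δ / 12 := rfl
  linarith

omit [TopologicalSpace Y] [CompactSpace Y] [T2Space Y] [SecondCountableTopology Y]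
  [MeasurableSpace Y] [BorelSpace Y] in
/-- Möbius disjointness from the strong MOMO property. -/
theorem disjoint_of_momo {S : Y → Y} {f : Y → ℂ} {M : ℝ} (hM : ∀ y, ‖f y‖ ≤ M)
    (h : MomoFor S f) (y : Y) :
    Tendsto (fun N : ℕ => (1 / (N : ℂ)) * ∑ n ∈ Icc 1 N, f (S^[n] y) *
      ((ArithmeticFunction.moebius n : ℤ) : ℂ)) atTop (𝓝 0) := by
  have hM0 : 0 ≤ M := (norm_nonneg _).trans (hM y)
  -- blocks between consecutive squares
  have h1 := h (fun k => k ^ 2) (by simp) (by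
    refine strictMono_nat_of_lt_succ fun k => ?_
    exact Nat.pow_lt_pow_left (Nat.lt_succ_self k) (by norm_num)) (by
    have h2 : (fun k : ℕ => (k + 1) ^ 2 - k ^ 2) = fun k => 2 * k + 1 := by
      funext k
      have : (k + 1) ^ 2 = k ^ 2 + (2 * k + 1) := by ring
      omega
    rw [h2]
    exact tendsto_atTop_mono (fun k => by show k ≤ 2 * k + 1; omega) tendsto_id) (fun k => S^[k ^ 2] y)
  have hblk : ∀ K : ℕ, ∑ n ∈ range (K ^ 2), f (S^[n] y) *
      ((ArithmeticFunction.moebius n : ℤ) : ℂ) =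
      ∑ k ∈ range K, blk S f (k ^ 2) ((k + 1) ^ 2) (S^[k ^ 2] y) := by
    intro K
    have h2 := (sum_Ico_pieces (fun n => f (S^[n] y) *
      ((ArithmeticFunction.moebius n : ℤ) : ℂ)) (fun k => k ^ 2) K (fun k _ => by
        show k ^ 2 ≤ (k + 1) ^ 2
        nlinarith)).2
    simp only [ne_eq, OfNat.ofNat_ne_zero, not_false_eq_true, zero_pow] at h2
    rw [range_eq_Ico, h2]
    refine sum_congr rfl fun k _ => ?_
    rw [blk]
    refine sum_congr rfl fun n hn => ?_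
    rw [mem_Ico] at hn
    rw [← Function.iterate_add_apply, Nat.sub_add_cancel hn.1]
  -- the bound
  have hbound : ∀ N : ℕ, 1 ≤ N → ‖(1 / (N : ℂ)) * ∑ n ∈ Icc 1 N, f (S^[n] y) *
      ((ArithmeticFunction.moebius n : ℤ) : ℂ)‖ ≤
      (1 / (((Nat.sqrt N) ^ 2 : ℕ) : ℝ)) * ∑ k ∈ range (Nat.sqrt N),
        ‖blk S f (k ^ 2) ((k + 1) ^ 2) (S^[k ^ 2] y)‖ + 3 * M * (1 / (Nat.sqrt N : ℝ)) := by
    intro N hN
    set K := Nat.sqrt N with hK
    have hK1 : K ^ 2 ≤ N := by rw [pow_two]; exact Nat.sqrt_le N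
    have hK2 : N ≤ K ^ 2 + 2 * K := by
      have := Nat.sqrt_le_add N
      rw [← hK] at this
      nlinarith
    have hK0 : 1 ≤ K := Nat.sqrt_pos.2 hN
    have hKr : (1 : ℝ) ≤ K := by exact_mod_cast hK0
    have hN0 : (0 : ℝ) < N := by exact_mod_cast hN
    have hsplit : ∑ n ∈ Icc 1 N, f (S^[n] y) * ((ArithmeticFunction.moebius n : ℤ) : ℂ) =
        ∑ n ∈ range (K ^ 2), f (S^[n] y) * ((ArithmeticFunction.moebius n : ℤ) : ℂ) +
        ∑ n ∈ Ico (K ^ 2) (N + 1), f (S^[n] y) *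
          ((ArithmeticFunction.moebius n : ℤ) : ℂ) := by
      rw [range_eq_Ico, sum_Ico_consecutive _ (Nat.zero_le _) (by omega)]
      have h2 : Ico 0 (N + 1) = insert 0 (Icc 1 N) := by
        ext n
        simp only [mem_Ico, mem_insert, mem_Icc]
        omega
      rw [h2, sum_insert (by simp)]
      simp
    have htail : ‖∑ n ∈ Ico (K ^ 2) (N + 1), f (S^[n] y) *
          ((ArithmeticFunction.moebius n : ℤ) : ℂ)‖ ≤ 3 * M * K := by
      have h2 : ‖∑ n ∈ Ico (K ^ 2) (N + 1), f (S^[n] y) *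
          ((ArithmeticFunction.moebius n : ℤ) : ℂ)‖ ≤ ∑ _n ∈ Ico (K ^ 2) (N + 1), M := by
        refine norm_sum_le_of_le _ fun n _ => ?_
        rw [norm_mul]
        calc ‖f (S^[n] y)‖ * ‖((ArithmeticFunction.moebius n : ℤ) : ℂ)‖ ≤ M * 1 :=
              mul_le_mul (hM _) (norm_moebius_le n) (norm_nonneg _) hM0
          _ = M := mul_one M
      rw [sum_const, Nat.card_Ico, nsmul_eq_mul] at h2
      refine h2.trans ?_
      have h3 : ((N + 1 - K ^ 2 : ℕ) : ℝ) ≤ 3 * K := by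
        have : N + 1 - K ^ 2 ≤ 3 * K := by omega
        exact_mod_cast this
      nlinarith
    have hmain : ‖∑ n ∈ Icc 1 N, f (S^[n] y) * ((ArithmeticFunction.moebius n : ℤ) : ℂ)‖ ≤
        ∑ k ∈ range K, ‖blk S f (k ^ 2) ((k + 1) ^ 2) (S^[k ^ 2] y)‖ + 3 * M * K := by
      rw [hsplit, hblk K]
      exact (norm_add_le _ _).trans (add_le_add (norm_sum_le _ _) htail)
    rw [norm_mul, norm_div, norm_one, Complex.norm_natCast]
    have hs0 : 0 ≤ ∑ k ∈ range K, ‖blk S f (k ^ 2) ((k + 1) ^ 2) (S^[k ^ 2] y)‖ :=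
      sum_nonneg fun _ _ => norm_nonneg _
    have hKN : (1 / (N : ℝ)) ≤ 1 / ((K ^ 2 : ℕ) : ℝ) := by
      refine one_div_le_one_div_of_le ?_ (by exact_mod_cast hK1)
      have : 0 < K ^ 2 := by positivity
      exact_mod_cast this
    calc (1 / (N : ℝ)) * ‖∑ n ∈ Icc 1 N, f (S^[n] y) *
          ((ArithmeticFunction.moebius n : ℤ) : ℂ)‖
        ≤ (1 / ((K ^ 2 : ℕ) : ℝ)) *
          (∑ k ∈ range K, ‖blk S f (k ^ 2) ((k + 1) ^ 2) (S^[k ^ 2] y)‖ + 3 * M * K) := by
          refine mul_le_mul hKN hmain (norm_nonneg _) ?_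
          positivity
      _ = (1 / ((K ^ 2 : ℕ) : ℝ)) * ∑ k ∈ range K,
            ‖blk S f (k ^ 2) ((k + 1) ^ 2) (S^[k ^ 2] y)‖ + 3 * M * (1 / (K : ℝ)) := by
          push_cast
          field_simp
  have hsq : Tendsto Nat.sqrt atTop atTop := by
    rw [tendsto_atTop]
    intro A
    filter_upwards [eventually_ge_atTop (A * A)] with n hn
    exact Nat.le_sqrt.2 hn
  have hlim : Tendsto (fun N : ℕ => (1 / (((Nat.sqrt N) ^ 2 : ℕ) : ℝ)) *
      ∑ k ∈ range (Nat.sqrt N), ‖blk S f (k ^ 2) ((k + 1) ^ 2) (S^[k ^ 2] y)‖ +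
      3 * M * (1 / (Nat.sqrt N : ℝ))) atTop (𝓝 0) := by
    have h2 := h1.comp hsq
    have h3 : Tendsto (fun N : ℕ => 3 * M * (1 / (Nat.sqrt N : ℝ))) atTop (𝓝 (3 * M * 0)) :=
      (tendsto_one_div_atTop_nhds_zero_nat.comp hsq).const_mul _
    have h4 := h2.add h3
    simpa using h4
  refine squeeze_zero_norm' ?_ hlim
  filter_upwards [eventually_ge_atTop 1] with N hN
  exact hbound N hN

end Pool.Agent.MOMQ
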