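import Pool.Agent.MOMQ.Two

/-!
MOMQ (MP_2b7f8f_an, Q2): subdivision of one block of a `Y`-orbit in blocks followed by `X`-orbits.
-/

set_option autoImplicit false

namespace Pool.Agent.MOMQ

open Finset Filter Topology

variable {X Y : Type*}

/-- The distance of the first `L` values of `f` along the orbit of `w` and of `F` along the orbit
of `x`. -/
noncomputable def cost (T : X → X) (F : X → ℂ) (S : Y → Y) (f : Y → ℂ) (L : ℕ) (w : Y) (x : X) :
    ℝ :=
  ∑ j ∈ range L, ‖f (S^[j] w) - F (T^[j] x)‖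

theorem cost_nonneg (T : X → X) (F : X → ℂ) (S : Y → Y) (f : Y → ℂ) (L : ℕ) (w : Y) (x : X) :
    0 ≤ cost T F S f L w x := sum_nonneg fun _ _ => norm_nonneg _

/-- The distance of the first `L` values along the orbit of `w` from all `X`-orbits. -/
noncomputable def dst (T : X → X) (F : X → ℂ) (S : Y → Y) (f : Y → ℂ) (L : ℕ) (w : Y) : ℝ :=
  ⨅ x, cost T F S f L w x

theorem bdd_cost (T : X → X) (F : X → ℂ) (S : Y → Y) (f : Y → ℂ) (L : ℕ) (w : Y) :
    BddBelow (Set.range fun x => cost T F S f L w x) :=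
  ⟨0, by rintro _ ⟨x, rfl⟩; exact cost_nonneg T F S f L w x⟩

theorem dst_nonneg (T : X → X) (F : X → ℂ) (S : Y → Y) (f : Y → ℂ) (L : ℕ) (w : Y) :
    0 ≤ dst T F S f L w := Real.iInf_nonneg fun x => cost_nonneg T F S f L w x

theorem dst_le (T : X → X) (F : X → ℂ) (S : Y → Y) (f : Y → ℂ) (L : ℕ) (w : Y) (x : X) :
    dst T F S f L w ≤ cost T F S f L w x := ciInf_le (bdd_cost T F S f L w) x

theorem exists_cost_le [Nonempty X] (T : X → X) (F : X → ℂ) (S : Y → Y) (f : Y → ℂ) (L : ℕ)
    (w : Y) {e : ℝ} (he : 0 < e) : ∃ x, cost T F S f L w x ≤ dst T F S f L w + e := by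
  obtain ⟨x, hx⟩ := exists_lt_of_ciInf_lt (lt_add_of_pos_right (dst T F S f L w) he)
  exact ⟨x, hx.le⟩

theorem dst_cont [Nonempty X] [TopologicalSpace Y] (T : X → X) (F : X → ℂ) {S : Y → Y}
    (hS : Continuous S) {f : Y → ℂ} (hf : Continuous f) (L : ℕ) :
    Continuous (dst T F S f L) := by
  have key : ∀ w w', dst T F S f L w ≤ dst T F S f L w' +
      ∑ j ∈ range L, ‖f (S^[j] w) - f (S^[j] w')‖ := by
    intro w w'
    refine le_of_forall_pos_le_add fun e he => ?_
    obtain ⟨x, hx⟩ := exists_cost_le T F S f L w' he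
    have h1 := dst_le T F S f L w x
    have h2 : cost T F S f L w x ≤ cost T F S f L w' x +
        ∑ j ∈ range L, ‖f (S^[j] w) - f (S^[j] w')‖ := by
      unfold cost
      rw [← sum_add_distrib]
      refine sum_le_sum fun j _ => ?_
      have : f (S^[j] w) - F (T^[j] x) =
          (f (S^[j] w') - F (T^[j] x)) + (f (S^[j] w) - f (S^[j] w')) := by ring
      rw [this]
      exact norm_add_le _ _
    linarith
  rw [continuous_iff_continuousAt]
  intro w0
  rw [ContinuousAt, tendsto_iff_norm_sub_tendsto_zero]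
  have hE : Tendsto (fun w => ∑ j ∈ range L, ‖f (S^[j] w) - f (S^[j] w0)‖) (𝓝 w0) (𝓝 0) := by
    have hc : Continuous fun w => ∑ j ∈ range L, ‖f (S^[j] w) - f (S^[j] w0)‖ :=
      continuous_finsetSum _ fun j _ => ((hf.comp (hS.iterate j)).sub continuous_const).norm
    have := hc.tendsto w0
    simpa using this
  refine squeeze_zero (fun _ => norm_nonneg _) (fun w => ?_) hE
  rw [Real.norm_eq_abs, abs_le]
  have h1 := key w w0
  have h2 := key w0 w
  have h3 : ∑ j ∈ range L, ‖f (S^[j] w0) - f (S^[j] w)‖ =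
      ∑ j ∈ range L, ‖f (S^[j] w) - f (S^[j] w0)‖ :=
    sum_congr rfl fun j _ => norm_sub_rev _ _
  constructor <;> linarith

theorem sum_range_mul' (h : ℕ → ℝ) (J L : ℕ) :
    ∑ n ∈ range (J * L), h n = ∑ j ∈ range J, ∑ r ∈ range L, h (j * L + r) := by
  induction J with
  | zero => simp
  | succ J ih => rw [Nat.add_mul, one_mul, sum_range_add, ih, sum_range_succ]

theorem sum_Ico_pieces {E : Type*} [AddCommMonoid E] (h : ℕ → E) (c : ℕ → ℕ) (q : ℕ)
    (hc : ∀ j < q, c j ≤ c (j + 1)) :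
    c 0 ≤ c q ∧ ∑ n ∈ Ico (c 0) (c q), h n = ∑ j ∈ range q, ∑ n ∈ Ico (c j) (c (j + 1)), h n := by
  induction q with
  | zero => simp
  | succ q ih =>
    obtain ⟨h1, h2⟩ := ih fun j hj => hc j (by omega)
    have h3 := hc q (by omega)
    refine ⟨h1.trans h3, ?_⟩
    rw [sum_range_succ, ← h2, sum_Ico_consecutive _ h1 h3]

theorem norm_moebius_le (n : ℕ) : ‖((ArithmeticFunction.moebius n : ℤ) : ℂ)‖ ≤ 1 := by
  rw [Complex.norm_intCast]
  have h := ArithmeticFunction.abs_moebius_le_one (n := n)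
  exact_mod_cast h

/-- Subdivision of one block. -/
theorem sub [Nonempty X] (T : X → X) (F : X → ℂ) (S : Y → Y) (f : Y → ℂ) {M : ℝ}
    (hf : ∀ y, ‖f y‖ ≤ M) (hF : ∀ x, ‖F x‖ ≤ M) {L g : ℕ} (hL : 1 ≤ L) (hg : 3 * L ≤ g) (a : ℕ)
    (y : Y) {η : ℝ} (hη : 0 < η)
    (hD : ∑ n ∈ range g, dst T F S f L (S^[n] y) ≤ η * L * g) :
    ∃ (q : ℕ) (c : ℕ → ℕ) (x : ℕ → X), 1 ≤ q ∧ c 0 = a ∧ c q = a + g ∧
      (∀ j < q, c j + L ≤ c (j + 1)) ∧
      ‖blk S f a (a + g) y‖ ≤ ∑ j ∈ range q, ‖blk T F (c j) (c (j + 1)) (x j)‖ +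
        (2 * η * g + 10 * M * L) := by
  classical
  have hM : 0 ≤ M := (norm_nonneg _).trans (hf y)
  set J : ℕ := g / L with hJ
  have hJ3 : 3 ≤ J := (Nat.le_div_iff_mul_le hL).2 hg
  have hJL : J * L ≤ g := Nat.div_mul_le_self g L
  have hJL' : g < (J + 1) * L := by
    have := Nat.lt_mul_div_succ g (show 0 < L from hL)
    rw [← hJ] at this
    linarith [mul_comm L (J + 1)]
  set D : Y → ℝ := dst T F S f L with hDdef
  have hD0 : ∀ w, 0 ≤ D w := fun w => dst_nonneg T F S f L w
  -- choice of the residue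
  have h1 : ∑ r ∈ range L, ∑ j ∈ range J, D (S^[j * L + r] y) ≤ ∑ _r ∈ range L, η * g := by
    rw [sum_comm, ← sum_range_mul' (fun n => D (S^[n] y)) J L]
    have h2 : ∑ n ∈ range (J * L), D (S^[n] y) ≤ ∑ n ∈ range g, D (S^[n] y) :=
      sum_le_sum_of_subset_of_nonneg (range_mono hJL) fun _ _ _ => hD0 _
    rw [sum_const, card_range, nsmul_eq_mul]
    calc ∑ n ∈ range (J * L), D (S^[n] y) ≤ η * L * g := h2.trans hD
      _ = (L : ℝ) * (η * g) := by ring
  obtain ⟨r, hr, hr2⟩ := exists_le_of_sum_le (by rw [nonempty_range_iff]; omega) h1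
  rw [mem_range] at hr
  choose x hx using fun j : ℕ => exists_cost_le T F S f L (S^[j * L + r] y) hη
  set c : ℕ → ℕ := fun j => if j = 0 then a else if j < J - 1 then a + r + j * L else a + g
    with hc
  have hc0 : c 0 = a := by simp [hc]
  have hcm : ∀ j, 1 ≤ j → j < J - 1 → c j = a + r + j * L := fun j h2 h3 => by
    have h4 : j ≠ 0 := by omega
    simp [hc, h4, h3]
  have hcq : ∀ j, J - 1 ≤ j → c j = a + g := fun j h2 => by
    have h4 : j ≠ 0 := by omega
    have h5 : ¬ (j < J - 1) := by omega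
    simp [hc, h4, h5]
  obtain ⟨P, hP⟩ : ∃ P, J = P + 2 := ⟨J - 2, by omega⟩
  have hJL2 : (J - 2) * L + 2 * L ≤ g := by
    rw [hP] at hJL
    rw [hP, Nat.add_sub_cancel]
    nlinarith
  have hstep : ∀ j < J - 1, c j + L ≤ c (j + 1) := by
    intro j hj
    rcases Nat.eq_zero_or_pos j with h2 | h2
    · subst h2
      rw [hc0, hcm 1 le_rfl (by omega)]
      omega
    · rw [hcm j h2 hj]
      rcases Nat.lt_or_ge (j + 1) (J - 1) with h3 | h3
      · rw [hcm (j + 1) (by omega) h3]
        have : (j + 1) * L = j * L + L := by ring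
        omega
      · rw [hcq (j + 1) h3]
        have h4 : j = J - 2 := by omega
        rw [h4]
        omega
  refine ⟨J - 1, c, x, by omega, hc0, hcq _ le_rfl, hstep, ?_⟩
  -- the error of a piece
  set er : ℕ → ℝ := fun j => ∑ n ∈ Ico (c j) (c (j + 1)),
    ‖f (S^[n - a] y) - F (T^[n - c j] (x j))‖ with her
  have hpiece : ∀ j ∈ range (J - 1), ‖∑ n ∈ Ico (c j) (c (j + 1)), f (S^[n - a] y) *
      ((ArithmeticFunction.moebius n : ℤ) : ℂ)‖ ≤ ‖blk T F (c j) (c (j + 1)) (x j)‖ + er j := by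
    intro j _
    have h2 : ∑ n ∈ Ico (c j) (c (j + 1)), f (S^[n - a] y) *
        ((ArithmeticFunction.moebius n : ℤ) : ℂ) = blk T F (c j) (c (j + 1)) (x j) +
        ∑ n ∈ Ico (c j) (c (j + 1)), (f (S^[n - a] y) - F (T^[n - c j] (x j))) *
          ((ArithmeticFunction.moebius n : ℤ) : ℂ) := by
      rw [blk, ← sum_add_distrib]
      refine sum_congr rfl fun n _ => ?_
      ring
    rw [h2]
    refine (norm_add_le _ _).trans (add_le_add le_rfl ?_)
    refine (norm_sum_le _ _).trans (sum_le_sum fun n _ => ?_)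
    rw [norm_mul]
    exact mul_le_of_le_one_right (norm_nonneg _) (norm_moebius_le n)
  have hcrude : ∀ j, er j ≤ 2 * M * ((c (j + 1) - c j : ℕ) : ℝ) := by
    intro j
    have h2 : er j ≤ ∑ _n ∈ Ico (c j) (c (j + 1)), 2 * M := by
      refine sum_le_sum fun n _ => ?_
      refine (norm_sub_le _ _).trans ?_
      have h3 := hf (S^[n - a] y)
      have h4 := hF (T^[n - c j] (x j))
      linarith
    rw [sum_const, Nat.card_Ico, nsmul_eq_mul] at h2
    linarith [mul_comm ((c (j + 1) - c j : ℕ) : ℝ) (2 * M)]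
  have herr : ∀ j ∈ range (J - 1), er j ≤ (D (S^[j * L + r] y) + η) +
      ((if j = 0 then 4 * M * L else 0) + (if j = J - 2 then 6 * M * L else 0)) := by
    intro j hj
    rw [mem_range] at hj
    have hDj := hD0 (S^[j * L + r] y)
    have hML : 0 ≤ M * L := by positivity
    have hi1 : (0 : ℝ) ≤ (if j = 0 then 4 * M * L else 0) := by split_ifs <;> linarith
    have hi2 : (0 : ℝ) ≤ (if j = J - 2 then 6 * M * L else 0) := by split_ifs <;> linarith
    rcases Nat.eq_zero_or_pos j with h2 | h2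
    · have h3 := hcrude j
      subst h2
      rw [if_pos rfl]
      have h4 : c (0 + 1) - c 0 ≤ 2 * L := by
        rw [hc0, zero_add, hcm 1 le_rfl (by omega)]
        omega
      have h5 : ((c (0 + 1) - c 0 : ℕ) : ℝ) ≤ 2 * L := by exact_mod_cast h4
      have h6 : 2 * M * ((c (0 + 1) - c 0 : ℕ) : ℝ) ≤ 2 * M * (2 * L) := by gcongr
      linarith
    · rcases Nat.lt_or_ge (j + 1) (J - 1) with h3 | h3
      · -- middle piece
        have h4 : er j ≤ D (S^[j * L + r] y) + η := by
          refine le_trans (le_of_eq ?_) (hx j)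
          simp only [her, cost]
          rw [hcm j h2 hj, hcm (j + 1) (by omega) h3]
          rw [sum_Ico_eq_sum_range]
          have h5 : a + r + (j + 1) * L - (a + r + j * L) = L := by
            have : (j + 1) * L = j * L + L := by ring
            omega
          rw [h5]
          refine sum_congr rfl fun i _ => ?_
          have h6 : a + r + j * L + i - a = i + (j * L + r) := by omega
          have h7 : a + r + j * L + i - (a + r + j * L) = i := by omega
          rw [h6, h7, Function.iterate_add_apply]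
        linarith
      · -- last piece
        have h4 : j = J - 2 := by omega
        rw [if_pos h4]
        have h5 := hcrude j
        have h6 : c (j + 1) - c j ≤ 3 * L := by
          rw [hcq (j + 1) h3, hcm j h2 hj, h4]
          have : g < (J - 2) * L + 3 * L := by
            rw [hP] at hJL'
            rw [hP, Nat.add_sub_cancel]
            nlinarith
          omega
        have h7 : ((c (j + 1) - c j : ℕ) : ℝ) ≤ 3 * L := by exact_mod_cast h6
        have h8 : 2 * M * ((c (j + 1) - c j : ℕ) : ℝ) ≤ 2 * M * (3 * L) := by gcongr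
        linarith
  have hsum : ∑ j ∈ range (J - 1), er j ≤ 2 * η * g + 10 * M * L := by
    refine (sum_le_sum herr).trans ?_
    rw [sum_add_distrib, sum_add_distrib, sum_add_distrib]
    have h2 : ∑ j ∈ range (J - 1), D (S^[j * L + r] y) ≤ η * g :=
      (sum_le_sum_of_subset_of_nonneg (range_mono (by omega)) fun _ _ _ => hD0 _).trans hr2
    have h3 : ∑ _j ∈ range (J - 1), η ≤ η * g := by
      rw [sum_const, card_range, nsmul_eq_mul, mul_comm]
      refine mul_le_mul_of_nonneg_left ?_ hη.le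
      have : J - 1 ≤ g := by
        have : J ≤ J * L := Nat.le_mul_of_pos_right _ hL
        omega
      exact_mod_cast this
    have h4 : ∑ j ∈ range (J - 1), (if j = 0 then 4 * M * L else 0) = 4 * M * L := by
      rw [sum_ite_eq' (range (J - 1)) 0 (fun _ => 4 * M * (L : ℝ)), if_pos (mem_range.2 (by omega))]
    have h5 : ∑ j ∈ range (J - 1), (if j = J - 2 then 6 * M * L else 0) = 6 * M * L := by
      rw [sum_ite_eq' (range (J - 1)) (J - 2) (fun _ => 6 * M * (L : ℝ)),
        if_pos (mem_range.2 (by omega))]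
    rw [h4, h5]
    linarith
  have hsplit := (sum_Ico_pieces (fun n => f (S^[n - a] y) *
    ((ArithmeticFunction.moebius n : ℤ) : ℂ)) c (J - 1) (fun j hj => by
      have := hstep j hj
      omega)).2
  rw [hc0, hcq _ le_rfl] at hsplit
  have hfin : ‖blk S f a (a + g) y‖ ≤ ∑ j ∈ range (J - 1),
      (‖blk T F (c j) (c (j + 1)) (x j)‖ + er j) := by
    rw [blk, hsplit]
    exact (norm_sum_le _ _).trans (sum_le_sum hpiece)
  rw [sum_add_distrib] at hfin
  linarith

end Pool.Agent.MOMQ
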