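import Mathlib

/-!
MOMQ (MP_2b7f8f_an, Q2): block sums, and strong MOMO for doubly indexed block sequences.
-/

set_option autoImplicit false

namespace Pool.Agent.MOMQ

open Finset Filter Topology

variable {X : Type*}

/-- The Möbius weighted sum of `F` over the block `[a, e)`, along the orbit of `x` started at time
`a`. -/
noncomputable def blk (T : X → X) (F : X → ℂ) (a e : ℕ) (x : X) : ℂ :=
  ∑ n ∈ Ico a e, F (T^[n - a] x) * ((ArithmeticFunction.moebius n : ℤ) : ℂ)

/-- Strong MOMO property for the function `F`. -/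
def MomoFor (T : X → X) (F : X → ℂ) : Prop :=
  ∀ b : ℕ → ℕ, b 0 = 0 → StrictMono b →
    Tendsto (fun k : ℕ => b (k + 1) - b k) atTop atTop →
    ∀ x : ℕ → X, Tendsto (fun K : ℕ => (1 / (b K : ℝ)) *
      ∑ k ∈ range K, ‖blk T F (b k) (b (k + 1)) (x k)‖) atTop (𝓝 0)

/-- Strong MOMO for doubly indexed block sequences. -/
theorem two {T : X → X} {F : X → ℂ} (h : MomoFor T F) {b : ℕ → ℕ} (hb0 : b 0 = 0) (q : ℕ → ℕ)
    (c : ℕ → ℕ → ℕ) (x : ℕ → ℕ → X) (lo : ℕ → ℕ) (hq : ∀ k, 1 ≤ q k)
    (hc0 : ∀ k, c k 0 = b k) (hcq : ∀ k, c k (q k) = b (k + 1))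
    (hlo : ∀ k, ∀ j < q k, c k j + lo k ≤ c k (j + 1)) (hlo1 : ∀ k, 1 ≤ lo k)
    (hlot : Tendsto lo atTop atTop) :
    Tendsto (fun K : ℕ => (1 / (b K : ℝ)) *
      ∑ k ∈ range K, ∑ j ∈ range (q k), ‖blk T F (c k j) (c k (j + 1)) (x k j)‖) atTop (𝓝 0) := by
  classical
  set Q : ℕ → ℕ := fun K => ∑ k ∈ range K, q k with hQ
  have hQ0 : Q 0 = 0 := by simp [hQ]
  have hQs : ∀ K, Q (K + 1) = Q K + q K := fun K => by simp [hQ, sum_range_succ]
  have hQm : StrictMono Q := strictMono_nat_of_lt_succ fun K => by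
    rw [hQs]; have := hq K; omega
  have hQid : ∀ K, K ≤ Q K := fun K => hQm.id_le K
  set idx : ℕ → ℕ := fun n => Nat.findGreatest (fun k => Q k ≤ n) n with hidx
  have hidx1 : ∀ n, Q (idx n) ≤ n := fun n => by
    have := Nat.findGreatest_spec (P := fun k => Q k ≤ n) (Nat.zero_le n) (by simp [hQ0])
    exact this
  have hidx2 : ∀ n, n < Q (idx n + 1) := fun n => by
    by_contra hcon
    push Not at hcon
    have h1 : idx n + 1 ≤ n := (hQid _).trans hcon
    have h2 : idx n + 1 ≤ idx n := Nat.le_findGreatest (P := fun k => Q k ≤ n) h1 hcon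
    omega
  have hidx3 : ∀ k j, j < q k → idx (Q k + j) = k := fun k j hj => by
    have h1 := hidx1 (Q k + j)
    have h2 := hidx2 (Q k + j)
    have h3 := hQs k
    have h4 : k ≤ idx (Q k + j) := by
      have : Q k < Q (idx (Q k + j) + 1) := by omega
      have := hQm.lt_iff_lt.1 this
      omega
    have h5 : idx (Q k + j) ≤ k := by
      have : Q (idx (Q k + j)) < Q (k + 1) := by omega
      have := hQm.lt_iff_lt.1 this
      omega
    omega
  set b' : ℕ → ℕ := fun n => c (idx n) (n - Q (idx n)) with hb'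
  set x' : ℕ → X := fun n => x (idx n) (n - Q (idx n)) with hx'
  have hb1 : ∀ k j, j < q k → b' (Q k + j) = c k j := fun k j hj => by
    simp only [hb', hidx3 k j hj, Nat.add_sub_cancel_left]
  have hx1 : ∀ k j, j < q k → x' (Q k + j) = x k j := fun k j hj => by
    simp only [hx', hidx3 k j hj, Nat.add_sub_cancel_left]
  have hb2 : ∀ k, b' (Q k) = b k := fun k => by
    have := hb1 k 0 (hq k)
    rw [Nat.add_zero] at this
    rw [this, hc0]
  have hb3 : ∀ k j, j < q k → b' (Q k + j + 1) = c k (j + 1) := fun k j hj => by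
    rcases Nat.lt_or_ge (j + 1) (q k) with h1 | h1
    · exact hb1 k (j + 1) h1
    · have h2 : j + 1 = q k := by omega
      rw [Nat.add_assoc, h2, ← hQs, hb2, hcq]
  have hdec : ∀ n, ∃ k j, j < q k ∧ n = Q k + j ∧ k = idx n := fun n => by
    have h1 := hidx1 n
    have h2 := hidx2 n
    have h3 := hQs (idx n)
    exact ⟨idx n, n - Q (idx n), by omega, by omega, rfl⟩
  have hgap : ∀ n, b' n + lo (idx n) ≤ b' (n + 1) := fun n => by
    obtain ⟨k, j, hj, hn, hk⟩ := hdec n
    rw [← hk, hn, hb1 k j hj, hb3 k j hj]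
    exact hlo k j hj
  have hidxt : Tendsto idx atTop atTop := by
    refine tendsto_atTop.2 fun k => ?_
    filter_upwards [eventually_ge_atTop (Q k)] with n hn
    exact Nat.le_findGreatest (P := fun k => Q k ≤ n) ((hQid k).trans hn) hn
  have hb'0 : b' 0 = 0 := by
    have := hb2 0
    rw [hQ0] at this
    rw [this, hb0]
  have hb'm : StrictMono b' := strictMono_nat_of_lt_succ fun n => by
    have h1 := hgap n
    have h2 := hlo1 (idx n)
    omega
  have hb'g : Tendsto (fun k : ℕ => b' (k + 1) - b' k) atTop atTop := by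
    refine tendsto_atTop_mono (fun n => ?_) (hlot.comp hidxt)
    have h1 := hgap n
    simp only [Function.comp]
    omega
  have hmain := (h b' hb'0 hb'm hb'g x').comp hQm.tendsto_atTop
  refine hmain.congr fun K => ?_
  simp only [Function.comp]
  rw [hb2]
  congr 1
  induction K with
  | zero => simp [hQ0]
  | succ K ih =>
    rw [hQs, sum_range_add, ih, sum_range_succ]
    congr 1
    refine sum_congr rfl fun j hj => ?_
    rw [mem_range] at hj
    rw [hb1 K j hj, hb3 K j hj, hx1 K j hj]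

end Pool.Agent.MOMQ
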